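import Pool.Agent.W873.RS.Stm

set_option autoImplicit false

open MeasureTheory ProbabilityTheory Filter Topology
open scoped ENNReal

namespace Pool.Agent.W641.RS.DET2

open Pool.Agent.W873.RS (sc)

theorem loc (g : ℝ → ℝ) (hg : Continuous g) (a : ℝ) (ha : g a ≠ 0) :
    ∀ᶠ ε in 𝓝[>] (0 : ℝ), ∀ x ∈ Set.Icc a (a + ε), (g x < 0 ↔ g a < 0) := by
  have h1 : ∀ᶠ x in 𝓝 a, (g x < 0 ↔ g a < 0) := by
    rcases lt_or_gt_of_ne ha with h | h
    · have := hg.continuousAt.eventually_lt_const h
      filter_upwards [this] with x hx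
      exact ⟨fun _ => h, fun _ => hx⟩
    · have := hg.continuousAt.eventually_const_lt h
      filter_upwards [this] with x hx
      exact ⟨fun h' => absurd hx (not_lt.mpr h'.le), fun h' => absurd h (not_lt.mpr h'.le)⟩
  rw [Metric.eventually_nhds_iff] at h1
  obtain ⟨δ, hδ, h1⟩ := h1
  filter_upwards [Ioo_mem_nhdsGT hδ] with ε hε x hx
  apply h1
  rw [Real.dist_eq, abs_lt]
  have := hε.1
  have := hε.2
  constructor <;> linarith [hx.1, hx.2]

open Classical in
noncomputable def b (g : ℝ → ℝ) (x : ℝ) : ℝ := if g x < 0 then 1 else 0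

theorem b_meas (g : ℝ → ℝ) (hg : Continuous g) : Measurable (b g) := by
  unfold b
  exact Measurable.ite (measurableSet_lt hg.measurable measurable_const) measurable_const
    measurable_const

theorem b_int (g : ℝ → ℝ) (hg : Continuous g) (c : ℝ) (u v : ℝ) :
    IntervalIntegrable (fun x => b g (x + c)) volume u v := by
  refine IntervalIntegrable.mono_fun (g := fun x => b g (x + c)) (f := fun _ : ℝ => (1 : ℝ))
    intervalIntegrable_const ?_ ?_
  · exact ((b_meas g hg).comp (measurable_id.add_const c)).aestronglyMeasurable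
  · refine Eventually.of_forall ?_
    intro x
    simp only [b]
    split_ifs <;> simp

theorem const_int (g : ℝ → ℝ) (a ε : ℝ) (hε : 0 < ε)
    (h : ∀ x ∈ Set.Icc a (a + ε), (g x < 0 ↔ g a < 0)) :
    ∫ x in a..(a + ε), b g x = ε * b g a := by
  have h1 : ∫ x in a..(a + ε), b g x = ∫ x in a..(a + ε), b g a := by
    refine intervalIntegral.integral_congr ?_
    intro x hx
    rw [Set.uIcc_of_le (by linarith)] at hx
    have h2 := h x hx
    simp only [b]
    by_cases h3 : g a < 0
    · rw [if_pos h3, if_pos (h2.mpr h3)]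
    · rw [if_neg h3, if_neg (fun h4 => h3 (h2.mp h4))]
  rw [h1, intervalIntegral.integral_const, smul_eq_mul]
  ring

theorem main : Pool.Agent.W873.RS.DET2 := by
  intro g p q hg hpq hs
  have hp : g p ≠ 0 := by
    intro h
    rw [h, zero_mul] at hs
    exact lt_irrefl _ hs
  have hq : g q ≠ 0 := by
    intro h
    rw [h, mul_zero] at hs
    exact lt_irrefl _ hs
  filter_upwards [loc g hg p hp, loc g hg q hq, self_mem_nhdsWithin] with ε h1 h2 h3
  have hε : 0 < ε := h3
  set S : Set ℝ := {x | x ∈ Set.Ioo p q ∧ sc (g x) (g (x + ε))} with hS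
  have hSm : MeasurableSet S := by
    have e1 : MeasurableSet {x : ℝ | g x < 0} := measurableSet_lt hg.measurable measurable_const
    have e2 : MeasurableSet {x : ℝ | g (x + ε) < 0} :=
      measurableSet_lt (hg.measurable.comp (measurable_id.add_const ε)) measurable_const
    have e3 : S = Set.Ioo p q ∩ (({x : ℝ | g x < 0} ∩ {x : ℝ | g (x + ε) < 0}) ∪
        ({x : ℝ | g x < 0}ᶜ ∩ {x : ℝ | g (x + ε) < 0}ᶜ))ᶜ := by
      ext x
      simp only [hS, sc, Set.mem_setOf_eq, Set.mem_inter_iff, Set.mem_compl_iff, Set.mem_union]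
      tauto
    rw [e3]
    exact measurableSet_Ioo.inter ((e1.inter e2).union (e1.compl.inter e2.compl)).compl
  have hSf : volume S ≠ ⊤ := by
    have : S ⊆ Set.Ioo p q := fun x hx => hx.1
    refine ne_top_of_le_ne_top ?_ (measure_mono this)
    simp
  rw [ENNReal.ofReal_le_iff_le_toReal hSf]
  have i0 : ∀ u v : ℝ, IntervalIntegrable (b g) volume u v := by
    intro u v
    have := b_int g hg 0 u v
    simpa using this
  have k1 : ∫ x in p..q, (b g x - b g (x + ε)) = ε * (b g p - b g q) := by
    rw [intervalIntegral.integral_sub (i0 p q) (b_int g hg ε p q),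
      intervalIntegral.integral_comp_add_right (fun x => b g x) ε,
      intervalIntegral.integral_interval_sub_interval_comm (i0 _ _) (i0 _ _) (i0 _ _),
      const_int g p ε hε h1, const_int g q ε hε h2]
    ring
  have k2 : |∫ x in p..q, (b g x - b g (x + ε))| = ε := by
    rw [k1, abs_mul, abs_of_pos hε]
    have : |b g p - b g q| = 1 := by
      simp only [b]
      rcases lt_or_gt_of_ne hp with h | h
      · have h' : 0 < g q := by
          by_contra hc
          have := mul_nonneg_of_nonpos_of_nonpos h.le (not_lt.mp hc)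
          linarith
        rw [if_pos h, if_neg (not_lt.mpr h'.le)]
        norm_num
      · have h' : g q < 0 := by
          by_contra hc
          have := mul_nonneg h.le (not_lt.mp hc)
          linarith
        rw [if_neg (not_lt.mpr h.le), if_pos h']
        norm_num
    rw [this, mul_one]
  have k3 : |∫ x in p..q, (b g x - b g (x + ε))| ≤ ∫ x in p..q, |b g x - b g (x + ε)| :=
    intervalIntegral.abs_integral_le_integral_abs hpq.le
  have k4 : ∫ x in p..q, |b g x - b g (x + ε)| = (volume S).toReal := by
    rw [intervalIntegral.integral_of_le hpq.le, integral_Ioc_eq_integral_Ioo]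
    have k5 : ∫ x in Set.Ioo p q, |b g x - b g (x + ε)| =
        ∫ x in Set.Ioo p q, S.indicator (fun _ => (1 : ℝ)) x := by
      refine setIntegral_congr_fun measurableSet_Ioo ?_
      intro x hx
      simp only [b]
      by_cases hxS : x ∈ S
      · rw [Set.indicator_of_mem hxS]
        have h4 : sc (g x) (g (x + ε)) := hxS.2
        unfold sc at h4
        split_ifs with a1 a2 a2
        · exact absurd ⟨fun _ => a2, fun _ => a1⟩ h4
        · norm_num
        · norm_num
        · exact absurd ⟨fun h => absurd h a1, fun h => absurd h a2⟩ h4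
      · rw [Set.indicator_of_notMem hxS]
        have h4 : ¬ sc (g x) (g (x + ε)) := fun h => hxS ⟨hx, h⟩
        unfold sc at h4
        split_ifs with a1 a2 a2
        · norm_num
        · exact absurd (fun h : (g x < 0 ↔ g (x + ε) < 0) => a2 (h.mp a1)) h4
        · exact absurd (fun h : (g x < 0 ↔ g (x + ε) < 0) => a1 (h.mpr a2)) h4
        · norm_num
    rw [k5, setIntegral_indicator hSm]
    have k6 : Set.Ioo p q ∩ S = S := Set.inter_eq_right.mpr (fun x hx => hx.1)
    rw [k6]
    simp [Measure.real]
  rw [k2] at k3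
  rw [k4] at k3
  exact k3

end Pool.Agent.W641.RS.DET2
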